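import Pool.Agent.Lib.MP_2b7562_ag.Iff

open Pool.Agent.Lib.MP_2b7562_ag

/-- Recursive description of the algebraic boundary of the matrices of nonnegative rank at most
`r`, for every `r`: there is `n₀` such that, whenever the number `n + 1` of columns is at least
`n₀`, a matrix lies on the algebraic boundary exactly when it has a column whose deletion keeps
the rank and leaves a matrix on the algebraic boundary. -/
theorem Pool.Agent.Results.MP_2b7562_ag.ColumnRecursion.result :
    ∀ r : ℕ, ∃ n₀ : ℕ, ∀ n : ℕ, n₀ ≤ n + 1 → ∀ (m : ℕ) (M : Matrix (Fin m) (Fin (n + 1)) ℝ),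
      M ∈ algBoundary m (n + 1) r ↔
        ∃ i₀ : Fin (n + 1), M.submatrix id i₀.succAbove ∈ algBoundary m n r ∧
          (M.submatrix id i₀.succAbove).rank = M.rank := by
  intro r
  exact ⟨2 ^ r * 3 ^ (r + r) + r + 1, fun n hn m M => characterization (by omega) M⟩
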